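import Pool.Agent.W423.NT.Defs

/-! # NT-REP2: division by the parameter (helper125), after helper398 -/

set_option autoImplicit false

namespace Pool.Agent.W125.NT

open MvPolynomial Pool.Agent.W423.NT

variable {d N P : ℕ} {R : Type} [CommRing R]

lemma sum_app {ι : Type} (S : Finset ι) (F : ι → FnQ d N R) (n : Fin d → ℕ) (e : Fin N →₀ ℕ) :
    (∑ i ∈ S, F i) n e = ∑ i ∈ S, F i n e := by
  classical
  induction S using Finset.induction_on with
  | empty => rfl
  | insert a S ha ih =>
    rw [Finset.sum_insert ha, Finset.sum_insert ha, addQ_apply, ih]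

/-- multiplication by a monomial -/
lemma low_neg (c : Fin N →₀ ℕ) (w : FnQ d N R) (n : Fin d → ℕ) (e : Fin N →₀ ℕ) :
    lowQ (fun i => -(c i : ℤ)) w n e = if c ≤ e then w n (e - c) else 0 := by
  unfold lowQ
  have h1 : (∀ i, 0 ≤ (e i : ℤ) + -(c i : ℤ)) ↔ c ≤ e := by
    rw [Finsupp.le_def]
    exact forall_congr' fun i => by omega
  by_cases h : c ≤ e
  · rw [if_pos (h1.2 h), if_pos h]
    have h2 : ∀ i, ((e i : ℤ) + -(c i : ℤ)).toNat.descFactorial ((-(c i : ℤ)).toNat) = 1 := by
      intro i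
      have : (-(c i : ℤ)).toNat = 0 := by omega
      rw [this, Nat.descFactorial_zero]
    simp only [h2, Finset.prod_const_one, Nat.cast_one, one_mul]
    congr 1
    ext i
    unfold Pool.Agent.W425.ND.tr
    rw [Finsupp.equivFunOnFinite_symm_apply_apply, Finsupp.tsub_apply]
    beta_reduce
    omega
  · rw [if_neg (fun h' => h (h1.1 h')), if_neg h]

lemma brk_one (M : Fin (P+1) → Fin d → ℕ) (G : Fin (P+1) → MvPolynomial (Fin N) R)
    (n : Fin d → ℕ) (e : Fin N →₀ ℕ) :
    brkQ M G 1 0 n e = coeff e (∏ k, G k ^ SM M n k) := by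
  unfold brkQ
  simp

/-- one term -/
lemma term (M : Fin (P+1) → Fin d → ℕ) (G : Fin (P+1) → MvPolynomial (Fin N) R)
    (c : Fin N →₀ ℕ) (t : R) (β : Fin d →₀ ℕ) (n : Fin d → ℕ) (e : Fin N →₀ ℕ) :
    lowQ (fun i => -(c i : ℤ))
      ((C t * ∏ j, X (Sum.inl j) ^ β j : MvPolynomial (Fin d ⊕ Fin N) R) • brkQ M G 1 0) n e =
      coeff e (monomial c t * (∏ j, ((n j : ℕ) : MvPolynomial (Fin N) R) ^ β j) *
        ∏ k, G k ^ SM M n k) := by
  rw [low_neg, mul_assoc, coeff_monomial_mul']
  by_cases h : c ≤ e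
  · rw [if_pos h, if_pos h, smulQ_apply, brk_one, map_mul, map_prod, eval_C]
    have h1 : (∏ j, ((n j : ℕ) : MvPolynomial (Fin N) R) ^ β j) = C (∏ j, (n j : R) ^ β j) := by
      rw [map_prod]
      refine Finset.prod_congr rfl fun j _ => ?_
      rw [map_pow, map_natCast]
    rw [h1, coeff_C_mul]
    simp only [map_pow, eval_X, evQ]
    ring
  · rw [if_neg h, if_neg h]

lemma SM_shift (M : Fin (P+1) → Fin d → ℕ) (n : Fin d → ℕ) (L : ℕ) (k : Fin (P+1)) :
    SM M (fun t => n t + L) k = SM M n k + L * rowM M k := by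
  unfold SM rowM
  rw [Finset.mul_sum, ← Finset.sum_add_distrib]
  refine Finset.sum_congr rfl fun t _ => ?_
  ring

theorem rep2 : TaskREP2Q := by
  classical
  intro d N P k _ _ M G hM hG u hu h0
  obtain ⟨L, q, U, hU, hq⟩ := hu
  set κ : MvPolynomial (Fin N) (PowerSeries k) →+* MvPolynomial (Fin N) k :=
    map PowerSeries.constantCoeff with hκ
  have hG0 : ∀ l, G l ≠ 0 := by
    intro l h
    apply hG l
    rw [h, map_zero]
  -- reduction modulo the parameter
  have hκU : ∀ n, κ (U n) = 0 := by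
    intro n
    ext e
    rw [hκ, coeff_map, ← hU, h0, coeff_zero]
  have hroot : ∀ n : Fin d → ℕ,
      eval (fun t => ((n t : ℕ) : MvPolynomial (Fin N) k)) (map κ q) = 0 := by
    intro n
    have h1 := congrArg κ (hq n)
    rw [map_mul, map_mul, hκU, mul_zero, map_prod κ (fun k => G k ^ SM M n k)] at h1
    have h3 : eval (fun t => ((n t : ℕ) : MvPolynomial (Fin N) k)) (map κ q) =
        κ (eval (fun t => ((n t : ℕ) : MvPolynomial (Fin N) (PowerSeries k))) q) := by
      rw [eval_map]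
      symm
      have h4 := eval₂_comp_left κ (RingHom.id _)
        (fun t => ((n t : ℕ) : MvPolynomial (Fin N) (PowerSeries k))) q
      rw [RingHom.comp_id] at h4
      refine h4.trans ?_
      congr 1
      funext t
      rw [Function.comp_apply, map_natCast]
    rw [h3]
    rcases mul_eq_zero.1 h1.symm with h2 | h2
    · exact h2
    · exfalso
      rw [Finset.prod_eq_zero_iff] at h2
      obtain ⟨l, -, hl⟩ := h2
      rw [map_pow] at hl
      exact pow_ne_zero _ (hG l) hl
  have hq0 : map κ q = 0 := by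
    apply MvPolynomial.funext_set
      (fun _ : Fin d => Set.range (fun s : ℕ => ((s : ℕ) : MvPolynomial (Fin N) k)))
      (fun _ => Set.infinite_range_of_injective Nat.cast_injective)
    intro x hx
    rw [map_zero]
    have hx' : ∀ t, ∃ s : ℕ, ((s : ℕ) : MvPolynomial (Fin N) k) = x t := fun t =>
      hx t (Set.mem_univ t)
    choose n hn using hx'
    have e : x = fun t => ((n t : ℕ) : MvPolynomial (Fin N) k) := by
      funext t; exact (hn t).symm
    rw [e]
    exact hroot n
  have hdvd : ∀ p : MvPolynomial (Fin N) (PowerSeries k), κ p = 0 → C PowerSeries.X ∣ p := by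
    intro p hp
    rw [C_dvd_iff_dvd_coeff]
    intro e
    rw [PowerSeries.X_dvd_iff]
    have h1 := congrArg (coeff e) hp
    rwa [hκ, coeff_map, coeff_zero] at h1
  have hqd : (C (C PowerSeries.X : MvPolynomial (Fin N) (PowerSeries k)) :
      MvPolynomial (Fin d) (MvPolynomial (Fin N) (PowerSeries k))) ∣ q := by
    rw [C_dvd_iff_dvd_coeff]
    intro j
    apply hdvd
    have h1 := congrArg (fun p => coeff j p) hq0
    simpa only [coeff_map, coeff_zero] using h1
  obtain ⟨q1, hq1⟩ := hqd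
  have hUd : ∀ n, ∃ V, U n = C PowerSeries.X * V := fun n => hdvd _ (hκU n)
  choose U1 hU1 using hUd
  have hX0 : (C PowerSeries.X : MvPolynomial (Fin N) (PowerSeries k)) ≠ 0 := by
    rw [Ne, C_eq_zero]
    exact PowerSeries.X_ne_zero
  have hrel : ∀ n : Fin d → ℕ, (∏ l, G l ^ L) * U1 n =
      eval (fun t => ((n t : ℕ) : MvPolynomial (Fin N) (PowerSeries k))) q1 *
      ∏ l, G l ^ SM M n l := by
    intro n
    have h1 := hq n
    rw [hU1, hq1, map_mul, eval_C] at h1
    apply mul_left_cancel₀ hX0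
    linear_combination h1
  have hGL : (∏ l, G l ^ L) ≠ 0 := Finset.prod_ne_zero_iff.2 fun l _ => pow_ne_zero _ (hG0 l)
  set q2 : MvPolynomial (Fin d) (MvPolynomial (Fin N) (PowerSeries k)) :=
    bind₁ (fun t => X t + C ((L : ℕ) : MvPolynomial (Fin N) (PowerSeries k))) q1 *
      C (∏ l, G l ^ (L * rowM M l - L)) with hq2
  have hsh : ∀ n : Fin d → ℕ, U1 (fun t => n t + L) =
      eval (fun t => ((n t : ℕ) : MvPolynomial (Fin N) (PowerSeries k))) q2 *
      ∏ l, G l ^ SM M n l := by
    intro n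
    have h1 := hrel (fun t => n t + L)
    apply mul_left_cancel₀ hGL
    have h2 : ∏ l, G l ^ SM M (fun t => n t + L) l =
        (∏ l, G l ^ L) * ((∏ l, G l ^ (L * rowM M l - L)) * ∏ l, G l ^ SM M n l) := by
      rw [← Finset.prod_mul_distrib, ← Finset.prod_mul_distrib]
      refine Finset.prod_congr rfl fun l _ => ?_
      rw [← pow_add, ← pow_add, SM_shift]
      congr 1
      have h3 : L ≤ L * rowM M l := Nat.le_mul_of_pos_right L (hM l)
      omega
    have h3 : eval (fun t => ((n t : ℕ) : MvPolynomial (Fin N) (PowerSeries k))) q2 =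
        eval (fun t => (((n t + L : ℕ) : ℕ) : MvPolynomial (Fin N) (PowerSeries k))) q1 *
          ∏ l, G l ^ (L * rowM M l - L) := by
      rw [hq2, map_mul, eval_C]
      congr 1
      rw [← coe_aeval_eq_eval, RingHom.coe_coe, aeval_bind₁]
      rw [← coe_aeval_eq_eval, RingHom.coe_coe]
      congr 2
      funext t
      simp
    rw [h1, h2, h3]
    ring
  let z : FnQ d N (PowerSeries k) := fun n e => coeff e (U1 n)
  refine ⟨z, fun n e => ?_, ?_⟩
  · change u n e = PowerSeries.X * coeff e (U1 n)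
    rw [hU, hU1, coeff_C_mul]
  set T : Finset (Σ _ : (Fin d →₀ ℕ), (Fin N →₀ ℕ)) :=
    q2.support.sigma (fun j => (coeff j q2).support) with hT
  refine ⟨L, T.card, fun i => (T.equivFin.symm i).1.2, fun i =>
    C (coeff (T.equivFin.symm i).1.2 (coeff (T.equivFin.symm i).1.1 q2)) *
      ∏ j, X (Sum.inl j) ^ (T.equivFin.symm i).1.1 j, ?_⟩
  funext n e
  rw [sum_app]
  let g : (Σ _ : (Fin d →₀ ℕ), (Fin N →₀ ℕ)) → PowerSeries k := fun x =>
    coeff e (monomial x.2 (coeff x.2 (coeff x.1 q2)) *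
        (∏ j, ((n j : ℕ) : MvPolynomial (Fin N) (PowerSeries k)) ^ x.1 j) * ∏ l, G l ^ SM M n l)
  have h1 : ∀ i : Fin T.card, lowQ (fun i' => -(((T.equivFin.symm i).1.2) i' : ℤ))
      ((C (coeff (T.equivFin.symm i).1.2 (coeff (T.equivFin.symm i).1.1 q2)) *
      ∏ j, X (Sum.inl j) ^ (T.equivFin.symm i).1.1 j :
        MvPolynomial (Fin d ⊕ Fin N) (PowerSeries k)) •
        brkQ M G 1 0) n e = (fun x : T => g x.1) (T.equivFin.symm i) := by
    intro i
    exact term _ _ _ _ _ _ _
  have h2 : ∑ i : Fin T.card, (fun x : T => g x.1) (T.equivFin.symm i) = ∑ x : T, g x.1 :=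
    Equiv.sum_comp T.equivFin.symm (fun x : T => g x.1)
  have h3 : ∑ x : T, g x.1 = ∑ x ∈ T, g x := Finset.sum_coe_sort T g
  have h4 : ∑ x ∈ T, g x = coeff e (U1 (fun t => n t + L)) := by
    rw [hsh, hT, Finset.sum_sigma, eval_eq', Finset.sum_mul, coeff_sum]
    refine Finset.sum_congr rfl fun j _ => ?_
    change ∑ c ∈ (coeff j q2).support, coeff e (monomial c (coeff c (coeff j q2)) *
        (∏ i, ((n i : ℕ) : MvPolynomial (Fin N) (PowerSeries k)) ^ j i) *
          ∏ l, G l ^ SM M n l) = _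
    rw [← coeff_sum, ← Finset.sum_mul, ← Finset.sum_mul, support_sum_monomial_coeff]
  rw [Finset.sum_congr rfl fun i _ => h1 i, h2, h3, h4]
  rfl

end Pool.Agent.W125.NT
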